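import Pool.Agent.FvsLine.Final

namespace Pool.Agent.Results.MP_94e41a_co.CliqueCovers

open Finset

/-- An oriented graph on the vertex set `Fin n`. `arc a b` says that there is an arc from `a` to
`b`. The asymmetry axiom excludes loops and pairs of opposite arcs. -/
structure OrientedGraph (n : ℕ) where
  arc : Fin n → Fin n → Prop
  asymm : ∀ a b, arc a b → ¬ arc b a

namespace OrientedGraph

variable {n : ℕ} (D : OrientedGraph n)

/-- the subdigraph induced by `S` has no directed cycle
(no closed directed walk of positive length) -/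
def AcyclicOn (S : Finset (Fin n)) : Prop :=
  ∀ v, ¬ Relation.TransGen (fun a b => a ∈ S ∧ b ∈ S ∧ D.arc a b) v v

/-- minimum size of a vertex set whose deletion leaves an acyclic digraph -/
noncomputable def fvs : ℕ := sInf {m | ∃ X : Finset (Fin n), X.card = m ∧ D.AcyclicOn Xᶜ}

end OrientedGraph

variable {n : ℕ} {D : OrientedGraph n}

lemma acyclic_of_rank {S : Finset (Fin n)} (h : Pool.Agent.FvsLine.Ranked D.arc S) :
    D.AcyclicOn S := by
  obtain ⟨r, h⟩ := h
  have key : ∀ a b, Relation.TransGen (fun a b => a ∈ S ∧ b ∈ S ∧ D.arc a b) a b → r b < r a := by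
    intro a b hab
    induction hab with
    | single h1 => exact h _ h1.1 _ h1.2.1 h1.2.2
    | tail _ h1 ih => exact (h _ h1.1 _ h1.2.1 h1.2.2).trans ih
  intro v hv
  exact lt_irrefl _ (key v v hv)

lemma fvs_add_le {S : Finset (Fin n)} (h : D.AcyclicOn S) : D.fvs + S.card ≤ n := by
  have h1 : Sᶜ.card + S.card = n := by
    rw [card_compl, Fintype.card_fin]
    have := card_le_univ S
    rw [Fintype.card_fin] at this
    omega
  have h2 : D.fvs ≤ Sᶜ.card := Nat.sInf_le ⟨Sᶜ, rfl, by rwa [compl_compl]⟩
  omega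

/-- Feedback vertex sets of oriented graphs whose arcs are covered by vertex sets `C j`, at most
`r` of them at every vertex and any two of them meeting in at most `l` vertices; `M` bounds the
total size of the sets through a vertex. -/
theorem result {n : ℕ} (D : OrientedGraph n) {J : Type} [Fintype J] (C : J → Finset (Fin n))
    (r l M : ℕ) (hr : 1 ≤ r) (hl : 1 ≤ l)
    (hcover : ∀ a b, D.arc a b → ∃ j, a ∈ C j ∧ b ∈ C j)
    (hmult : ∀ v, (univ.filter fun j => v ∈ C j).card ≤ r)
    (hinter : ∀ i j, i ≠ j → (C i ∩ C j).card ≤ l)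
    (hsize : ∀ v, ∑ j ∈ univ.filter (fun j => v ∈ C j), (C j).card ≤ M) :
    (D.fvs : ℝ) ≤
      (1 - Real.logb 2 ((M : ℝ) / (r ^ 2 * l)) / (4608 * r ^ 2 * M)) * n := by
  obtain ⟨S, hS, hb⟩ := Pool.Agent.FvsLine.exists_acyclic' D.arc D.asymm C hcover hr
    hmult hl hinter hsize
  have h1 := fvs_add_le (acyclic_of_rank hS)
  have h2 : (D.fvs : ℝ) + S.card ≤ n := by exact_mod_cast h1
  rw [Fintype.card_fin] at hb
  linarith

end Pool.Agent.Results.MP_94e41a_co.CliqueCovers
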