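import Pool.Agent.Fvs.Greedy

namespace Pool.Agent.Results.MP_94e41a_co.PowerOfLog

open Finset

/-- An oriented graph on the vertex set `Fin n`. `arc a b` says that there is an arc from `a` to
`b`. The asymmetry axiom excludes loops and pairs of opposite arcs. -/
structure OrientedGraph (n : ℕ) where
  arc : Fin n → Fin n → Prop
  asymm : ∀ a b, arc a b → ¬ arc b a

namespace OrientedGraph

variable {n : ℕ} (D : OrientedGraph n)

open Classical in
/-- out-degree -/
noncomputable def outDeg (v : Fin n) : ℕ := (univ.filter fun x => D.arc v x).card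

open Classical in
/-- in-degree -/
noncomputable def inDeg (v : Fin n) : ℕ := (univ.filter fun x => D.arc x v).card

/-- degree: out-degree plus in-degree -/
noncomputable def deg (v : Fin n) : ℕ := D.outDeg v + D.inDeg v

/-- the subdigraph induced by `S` has no directed cycle
(no closed directed walk of positive length) -/
def AcyclicOn (S : Finset (Fin n)) : Prop :=
  ∀ v, ¬ Relation.TransGen (fun a b => a ∈ S ∧ b ∈ S ∧ D.arc a b) v v

/-- minimum size of a vertex set whose deletion leaves an acyclic digraph -/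
noncomputable def fvs : ℕ := sInf {m | ∃ X : Finset (Fin n), X.card = m ∧ D.AcyclicOn Xᶜ}

end OrientedGraph

/-- the supremum of `fvs D / |V(D)|` over all oriented graphs with all degrees at most `k` -/
noncomputable def f (k : ℕ) : ℝ :=
  sSup {r : ℝ | ∃ (n : ℕ) (D : OrientedGraph n), 0 < n ∧ (∀ v, D.deg v ≤ k) ∧
    r = (D.fvs : ℝ) / (n : ℝ)}

variable {n : ℕ} {D : OrientedGraph n}

lemma acyclic_of_rank {S : Finset (Fin n)} {r : Fin n → ℕ}
    (h : ∀ a ∈ S, ∀ b ∈ S, D.arc a b → r b < r a) : D.AcyclicOn S := by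
  have key : ∀ a b, Relation.TransGen (fun a b => a ∈ S ∧ b ∈ S ∧ D.arc a b) a b → r b < r a := by
    intro a b hab
    induction hab with
    | single h1 => exact h _ h1.1 _ h1.2.1 h1.2.2
    | tail _ h1 ih => exact (h _ h1.1 _ h1.2.1 h1.2.2).trans ih
  intro v hv
  exact lt_irrefl _ (key v v hv)

lemma fvs_le {S : Finset (Fin n)} (h : D.AcyclicOn S) : D.fvs ≤ n - S.card := by
  have h1 : Sᶜ.card = n - S.card := by rw [card_compl, Fintype.card_fin]
  rw [← h1]
  exact Nat.sInf_le ⟨Sᶜ, rfl, by rwa [compl_compl]⟩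

lemma closed_card {k : ℕ} (hk : ∀ v, D.deg v ≤ k) (v : Fin n) (S : Finset (Fin n))
    (hS : ∀ x ∈ S, Pool.Agent.Fvs.adjOf D.arc v x) : S.card ≤ k + 1 := by
  classical
  have hsub : S ⊆ insert v ((univ.filter fun x => D.arc v x) ∪ (univ.filter fun x => D.arc x v)) := by
    intro x hx
    rcases hS x hx with h | h | h
    · exact mem_insert.2 (Or.inl h.symm)
    · exact mem_insert.2 (Or.inr (mem_union.2 (Or.inl (mem_filter.2 ⟨mem_univ _, h⟩))))
    · exact mem_insert.2 (Or.inr (mem_union.2 (Or.inr (mem_filter.2 ⟨mem_univ _, h⟩))))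
  have h1 := (card_le_card hsub).trans (card_insert_le _ _)
  have h2 := card_union_le (univ.filter fun x => D.arc v x) (univ.filter fun x => D.arc x v)
  have h3 := hk v
  unfold OrientedGraph.deg OrientedGraph.outDeg OrientedGraph.inDeg at h3
  have h4 : (univ.filter fun x => D.arc v x).card + (univ.filter fun x => D.arc x v).card ≤ k := by
    exact h3
  omega

/-- the trivial bound from a maximal independent set -/
lemma trivial_bound {k : ℕ} (hk : ∀ v, D.deg v ≤ k) :
    ∃ S : Finset (Fin n), D.AcyclicOn S ∧ n ≤ (k + 1) * S.card := by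
  classical
  set F : Finset (Finset (Fin n)) := univ.filter (fun S => ∀ a ∈ S, ∀ b ∈ S, ¬ D.arc a b) with hF
  have hne : F.Nonempty := ⟨∅, by simp [hF]⟩
  obtain ⟨S, hS, hmax⟩ := exists_max_image F card hne
  have hSi : ∀ a ∈ S, ∀ b ∈ S, ¬ D.arc a b := (mem_filter.1 hS).2
  refine ⟨S, acyclic_of_rank (r := fun _ => 0) fun a ha b hb h => absurd h (hSi a ha b hb), ?_⟩
  have hcov : (univ : Finset (Fin n)) ⊆ S.biUnion fun a =>
      univ.filter (fun x => Pool.Agent.Fvs.adjOf D.arc a x) := by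
    intro v _
    rw [mem_biUnion]
    by_contra hcon
    push Not at hcon
    have hv : ∀ a ∈ S, ¬ Pool.Agent.Fvs.adjOf D.arc a v := by
      intro a ha h
      exact hcon a ha (mem_filter.2 ⟨mem_univ _, h⟩)
    have hvS : v ∉ S := fun h => hv v h (Or.inl rfl)
    have hins : insert v S ∈ F := by
      rw [hF, mem_filter]
      refine ⟨mem_univ _, fun a ha b hb hab => ?_⟩
      rcases mem_insert.1 ha with h1 | h1 <;> rcases mem_insert.1 hb with h2 | h2
      · rw [h1, h2] at hab; exact D.asymm _ _ hab hab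
      · rw [h1] at hab; exact hv b h2 (Or.inr (Or.inr hab))
      · rw [h2] at hab; exact hv a h1 (Or.inr (Or.inl hab))
      · exact hSi a h1 b h2 hab
    have := hmax _ hins
    rw [card_insert_of_notMem hvS] at this
    omega
  have h1 := card_le_card hcov
  rw [card_univ, Fintype.card_fin] at h1
  have h2 : (S.biUnion fun a => univ.filter (fun x => Pool.Agent.Fvs.adjOf D.arc a x)).card
      ≤ S.card * (k + 1) :=
    card_biUnion_le_card_mul _ _ _ fun a _ => closed_card hk a _ fun x hx => (mem_filter.1 hx).2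
  calc n ≤ _ := h1
    _ ≤ S.card * (k + 1) := h2
    _ = (k + 1) * S.card := mul_comm _ _

/-- a lower bound on acyclic sets -/
lemma main_bound {k : ℕ} (hk3 : 3 ≤ k) (hk : ∀ v, D.deg v ≤ k) :
    ∃ S : Finset (Fin n), D.AcyclicOn S ∧
      (1 / 10 ^ 52 : ℝ) * (Real.logb 2 k) ^ ((1 : ℝ) / 12) / k * n ≤ S.card := by
  have hk0 : (3 : ℝ) ≤ k := by exact_mod_cast hk3
  have hkpos : (0 : ℝ) < k := by linarith
  have hlog2 : 0 < Real.log 2 := Real.log_pos (by norm_num)
  have hlog2' : 1 / 2 ≤ Real.log 2 := by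
    have := Real.log_two_gt_d9
    linarith
  have hlogk : 0 ≤ Real.log k := Real.log_nonneg (by linarith)
  have hlb0 : 0 ≤ Real.logb 2 k := by
    unfold Real.logb
    positivity
  have hn0 : (0 : ℝ) ≤ n := Nat.cast_nonneg n
  have hlogK : Real.log k ≤ Real.log ((k + 1 : ℕ) : ℝ) := by
    apply Real.log_le_log hkpos
    push_cast
    linarith
  have hlb : Real.logb 2 k ≤ 2 * Real.log ((k + 1 : ℕ) : ℝ) := by
    unfold Real.logb
    rw [div_le_iff₀ hlog2]
    nlinarith
  have hrp : ∀ x : ℝ, 0 ≤ x → (x ^ ((1 : ℝ) / 12)) ^ 12 = x := by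
    intro x hx
    rw [← Real.rpow_natCast, ← Real.rpow_mul hx]
    norm_num
  by_cases hbig : (10 ^ 50 : ℝ) ^ 12 ≤ Real.log ((k + 1 : ℕ) : ℝ)
  · set T : ℝ := (Real.log ((k + 1 : ℕ) : ℝ)) ^ ((1 : ℝ) / 12) with hT
    have hTL : T ^ 12 = Real.log ((k + 1 : ℕ) : ℝ) := hrp _ (hlogk.trans hlogK)
    have hT0 : 0 ≤ T := Real.rpow_nonneg (hlogk.trans hlogK) _
    have hT50 : 10 ^ 50 ≤ T := by
      by_contra h
      push Not at h
      have := pow_lt_pow_left₀ h hT0 (by norm_num : 12 ≠ 0)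
      rw [hTL] at this
      linarith
    obtain ⟨S, r, hS, hcard⟩ := Pool.Agent.Fvs.exists_large D.arc D.asymm (K := k + 1)
      (closed_card hk) hT50 (le_of_eq hTL)
    refine ⟨S, acyclic_of_rank hS, ?_⟩
    rw [Fintype.card_fin] at hcard
    push_cast at hcard
    have h1 : (Real.logb 2 k) ^ ((1 : ℝ) / 12) ≤ 2 * T := by
      have e1 : (Real.logb 2 k) ^ ((1 : ℝ) / 12) ≤ (2 * Real.log ((k + 1 : ℕ) : ℝ)) ^ ((1 : ℝ) / 12) :=
        Real.rpow_le_rpow hlb0 hlb (by norm_num)
      rw [Real.mul_rpow (by norm_num) (hlogk.trans hlogK)] at e1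
      have e2 : (2 : ℝ) ^ ((1 : ℝ) / 12) ≤ 2 := by
        calc (2 : ℝ) ^ ((1 : ℝ) / 12) ≤ 2 ^ (1 : ℝ) :=
              Real.rpow_le_rpow_of_exponent_le (by norm_num) (by norm_num)
          _ = 2 := Real.rpow_one 2
      exact e1.trans (mul_le_mul_of_nonneg_right e2 hT0)
    have h2 : (1 / 10 ^ 52 : ℝ) * (Real.logb 2 k) ^ ((1 : ℝ) / 12) / k * n
        ≤ (1 / 10 ^ 52 : ℝ) * (2 * T) / k * n := by
      apply mul_le_mul_of_nonneg_right _ hn0
      apply div_le_div_of_nonneg_right _ hkpos.le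
      exact mul_le_mul_of_nonneg_left h1 (by positivity)
    refine h2.trans ?_
    have h3 : T * n ≤ 4 * k * S.card := by
      have : (0 : ℝ) ≤ S.card := Nat.cast_nonneg _
      nlinarith
    have h4 : (1 / 10 ^ 52 : ℝ) * (2 * T) / k * n = (2 / 10 ^ 52) * (T * n) / k := by ring
    rw [h4, div_le_iff₀ hkpos]
    have h5 : (0 : ℝ) ≤ k * S.card := mul_nonneg hkpos.le (Nat.cast_nonneg _)
    nlinarith
  · push Not at hbig
    obtain ⟨S, hS, hcard⟩ := trivial_bound hk
    refine ⟨S, hS, ?_⟩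
    have hcard' : (n : ℝ) ≤ (k + 1) * S.card := by exact_mod_cast hcard
    have h1 : (Real.logb 2 k) ^ ((1 : ℝ) / 12) ≤ 10 ^ 51 := by
      by_contra h
      push Not at h
      have e1 := pow_lt_pow_left₀ h (by positivity) (by norm_num : 12 ≠ 0)
      rw [hrp _ hlb0] at e1
      have e2 : ((10 : ℝ) ^ 51) ^ 12 = 10 ^ 12 * (10 ^ 50) ^ 12 := by norm_num
      have e3 : (0 : ℝ) < (10 ^ 50) ^ 12 := by positivity
      linarith
    have h2 : (1 / 10 ^ 52 : ℝ) * (Real.logb 2 k) ^ ((1 : ℝ) / 12) / k * n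
        ≤ (1 / 10 ^ 52 : ℝ) * 10 ^ 51 / k * n := by
      apply mul_le_mul_of_nonneg_right _ hn0
      apply div_le_div_of_nonneg_right _ hkpos.le
      exact mul_le_mul_of_nonneg_left h1 (by positivity)
    refine h2.trans ?_
    have h4 : (1 / 10 ^ 52 : ℝ) * 10 ^ 51 / k * n = (1 / 10) * n / k := by
      have : (1 / 10 ^ 52 : ℝ) * 10 ^ 51 = 1 / 10 := by norm_num
      rw [this]; ring
    rw [h4, div_le_iff₀ hkpos]
    have h5 : (0 : ℝ) ≤ S.card := Nat.cast_nonneg _
    nlinarith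

/-- **Main result.** There is `c > 0` with `f(k) ≤ 1 - c (log₂ k)^{1/12} / k` for all `k ≥ 3`. -/
theorem result : ∃ c : ℝ, 0 < c ∧ ∀ k : ℕ, 3 ≤ k →
    f k ≤ 1 - c * (Real.logb 2 k) ^ ((1 : ℝ) / 12) / k := by
  refine ⟨1 / 10 ^ 52, by positivity, fun k hk3 => ?_⟩
  unfold f
  apply csSup_le
  · refine ⟨_, 1, ⟨fun _ _ => False, fun _ _ h => h.elim⟩, one_pos, fun v => ?_, rfl⟩
    simp [OrientedGraph.deg, OrientedGraph.outDeg, OrientedGraph.inDeg]
  · rintro r ⟨n, D, hn, hdeg, rfl⟩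
    obtain ⟨S, hS, hcard⟩ := main_bound hk3 hdeg
    have hn0 : (0 : ℝ) < n := by exact_mod_cast hn
    rw [div_le_iff₀ hn0]
    have h1 := fvs_le hS
    have h2 : S.card ≤ n := by
      have := card_le_univ S
      rwa [Fintype.card_fin] at this
    have h3 : (D.fvs : ℝ) ≤ n - S.card := by
      have : (D.fvs : ℝ) ≤ ((n - S.card : ℕ) : ℝ) := by exact_mod_cast h1
      rwa [Nat.cast_sub h2] at this
    rw [sub_mul, one_mul]
    linarith

end Pool.Agent.Results.MP_94e41a_co.PowerOfLog
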