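import Mathlib

namespace Pool.Agent.Results.MP_94e41a_co.SmoothedOrientations

open Finset

/-- An oriented graph on the vertex set `Fin n`. `arc a b` says that there is an arc from `a` to
`b`. The asymmetry axiom excludes loops and pairs of opposite arcs. -/
structure OrientedGraph (n : ℕ) where
  arc : Fin n → Fin n → Prop
  asymm : ∀ a b, arc a b → ¬ arc b a

namespace OrientedGraph

variable {n : ℕ} (D : OrientedGraph n)

/-- the subdigraph induced by `S` has no directed cycle
(no closed directed walk of positive length) -/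
def AcyclicOn (S : Finset (Fin n)) : Prop :=
  ∀ v, ¬ Relation.TransGen (fun a b => a ∈ S ∧ b ∈ S ∧ D.arc a b) v v

/-- minimum size of a vertex set whose deletion leaves an acyclic digraph -/
noncomputable def fvs : ℕ := sInf {m | ∃ X : Finset (Fin n), X.card = m ∧ D.AcyclicOn Xᶜ}

end OrientedGraph

variable {n : ℕ}

/-- The orientation of the graph `G` coded by `ω`: an edge with ends `a < b` is directed from `a`
to `b` if `ω` is true on it, and from `b` to `a` if `ω` is false on it. -/
def orient (G : SimpleGraph (Fin n)) (ω : Sym2 (Fin n) → Bool) : OrientedGraph n where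
  arc a b := G.Adj a b ∧ (ω s(a, b) = true ↔ a < b)
  asymm := by
    rintro a b ⟨h1, h2⟩ ⟨h3, h4⟩
    rw [Sym2.eq_swap] at h4
    have h5 : a < b ↔ b < a := h2.symm.trans h4
    rcases lt_trichotomy a b with h | h | h
    · exact absurd (h5.1 h) (not_lt.2 h.le)
    · exact h1.ne h
    · exact absurd (h5.2 h) (not_lt.2 h.le)

/-- the code of the orientation in which the edge `e` is reversed -/
def flip (e : Sym2 (Fin n)) (ω : Sym2 (Fin n) → Bool) : Sym2 (Fin n) → Bool :=
  Function.update ω e (!ω e)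

/-- `μ` is a probability distribution on codes of orientations of `G` such that, conditionally on
the directions of all other edges, every edge of `G` takes each of its two directions with
probability at least `ε`. -/
structure IsRandomOrientation (G : SimpleGraph (Fin n)) (ε : ℝ)
    (μ : (Sym2 (Fin n) → Bool) → ℝ) : Prop where
  nonneg : ∀ ω, 0 ≤ μ ω
  total : ∑ ω, μ ω = 1
  free : ∀ e ∈ G.edgeSet, ∀ ω, ε * (μ ω + μ (flip e ω)) ≤ μ ω

lemma flip_flip (e : Sym2 (Fin n)) (ω : Sym2 (Fin n) → Bool) : flip e (flip e ω) = ω := by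
  unfold flip
  ext x
  by_cases h : x = e
  · subst h; simp
  · simp [Function.update_of_ne h]

lemma arc_flip {G : SimpleGraph (Fin n)} {s v : Fin n} (h : G.Adj s v)
    (ω : Sym2 (Fin n) → Bool) :
    (orient G (flip s(s, v) ω)).arc s v ↔ ¬ (orient G ω).arc s v := by
  simp only [orient, flip, Function.update_self, h, true_and]
  cases ω s(s, v) <;> by_cases h' : s < v <;> simp [h']

lemma arc_flip_ne {G : SimpleGraph (Fin n)} {s v : Fin n} {e : Sym2 (Fin n)} (h : e ≠ s(s, v))
    (ω : Sym2 (Fin n) → Bool) :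
    (orient G (flip e ω)).arc s v ↔ (orient G ω).arc s v := by
  simp only [orient, flip, Function.update_of_ne h.symm]

/-- extension of an acyclic set by a vertex without arcs into it -/
lemma acyclic_insert {D : OrientedGraph n} {S : Finset (Fin n)} {v : Fin n}
    (hS : D.AcyclicOn S) (hv : ∀ b ∈ S, ¬ D.arc v b) : D.AcyclicOn (insert v S) := by
  have hvv : ¬ D.arc v v := fun h => D.asymm _ _ h h
  have step : ∀ a b, (a ∈ insert v S ∧ b ∈ insert v S ∧ D.arc a b) → a ≠ v ∧
      (b = v ∨ (a ∈ S ∧ b ∈ S ∧ D.arc a b)) := by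
    rintro a b ⟨ha, hb, hab⟩
    have hav : a ≠ v := by
      rintro rfl
      rcases mem_insert.1 hb with h | h
      · rw [h] at hab; exact hvv hab
      · exact hv b h hab
    refine ⟨hav, ?_⟩
    rcases mem_insert.1 hb with h | h
    · exact Or.inl h
    · exact Or.inr ⟨(mem_insert.1 ha).resolve_left hav, h, hab⟩
  have key : ∀ a b, Relation.TransGen (fun a b => a ∈ insert v S ∧ b ∈ insert v S ∧ D.arc a b) a b →
      a ≠ v ∧ (b = v ∨ Relation.TransGen (fun a b => a ∈ S ∧ b ∈ S ∧ D.arc a b) a b) := by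
    intro a b hab
    induction hab with
    | single h1 =>
      obtain ⟨h2, h3⟩ := step _ _ h1
      exact ⟨h2, h3.imp id Relation.TransGen.single⟩
    | tail _ h1 ih =>
      obtain ⟨h2, h3⟩ := step _ _ h1
      refine ⟨ih.1, h3.imp id fun h => ?_⟩
      exact (ih.2.resolve_left h2).tail h
  intro a ha
  obtain ⟨h1, h2⟩ := key a a ha
  exact hS a (h2.resolve_left h1)

lemma acyclic_empty (D : OrientedGraph n) : D.AcyclicOn ∅ := by
  intro v hv
  have : ∀ a b, ¬ Relation.TransGen (fun a b => a ∈ (∅ : Finset (Fin n)) ∧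
      b ∈ (∅ : Finset (Fin n)) ∧ D.arc a b) a b := by
    intro a b hab
    induction hab with
    | single h1 => exact absurd h1.1 (notMem_empty _)
    | tail _ h1 _ => exact absurd h1.1 (notMem_empty _)
  exact this v v hv

lemma fvs_le {D : OrientedGraph n} {S : Finset (Fin n)} (h : D.AcyclicOn S) :
    D.fvs ≤ n - S.card := by
  have h1 : Sᶜ.card = n - S.card := by rw [card_compl, Fintype.card_fin]
  rw [← h1]
  exact Nat.sInf_le ⟨Sᶜ, rfl, by rwa [compl_compl]⟩

/-- the event `C` does not depend on the edges which are not inside `P` -/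
def InsideOf (P : Finset (Fin n)) (C : Finset (Sym2 (Fin n) → Bool)) : Prop :=
  ∀ e : Sym2 (Fin n), (¬ ∀ x ∈ e, x ∈ P) → ∀ ω, flip e ω ∈ C ↔ ω ∈ C

open Classical in
lemma cond_bound {G : SimpleGraph (Fin n)} {ε : ℝ} {μ : (Sym2 (Fin n) → Bool) → ℝ}
    (hε : 0 < ε) (hμ : IsRandomOrientation G ε μ) {P : Finset (Fin n)}
    {C : Finset (Sym2 (Fin n) → Bool)} (hC : InsideOf P C) {v : Fin n} (hv : v ∉ P)
    (T : Finset (Fin n)) (hTP : T ⊆ P) (hTN : ∀ s ∈ T, G.Adj s v) :
    ε ^ T.card * ∑ ω ∈ C, μ ω ≤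
      ∑ ω ∈ C.filter (fun ω => ∀ s ∈ T, (orient G ω).arc s v), μ ω := by
  induction T using Finset.induction_on with
  | empty => simp
  | insert s T hs ih =>
    have ih' := ih ((subset_insert _ _).trans hTP) fun x hx => hTN x (mem_insert_of_mem hx)
    have hadj : G.Adj s v := hTN s (mem_insert_self _ _)
    set CT := C.filter (fun ω => ∀ s ∈ T, (orient G ω).arc s v) with hCT
    have hsub : C.filter (fun ω => ∀ x ∈ insert s T, (orient G ω).arc x v) =
        CT.filter (fun ω => (orient G ω).arc s v) := by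
      ext ω
      simp only [hCT, mem_filter, mem_insert, forall_eq_or_imp]
      tauto
    rw [hsub]
    have hinv : ∀ ω, flip s(s, v) ω ∈ CT ↔ ω ∈ CT := by
      intro ω
      have h1 : flip s(s, v) ω ∈ C ↔ ω ∈ C := by
        apply hC
        intro h
        exact hv (h v (Sym2.mem_mk_right s v))
      simp only [hCT, mem_filter, h1]
      refine and_congr_right fun _ => forall₂_congr fun x hx => ?_
      apply arc_flip_ne
      intro h
      rw [Sym2.eq_iff] at h
      rcases h with ⟨h, _⟩ | ⟨h, _⟩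
      · rw [h] at hs; exact hs hx
      · exact absurd h hadj.ne
    have hsum : ∑ ω ∈ CT, μ ω = ∑ ω ∈ CT.filter (fun ω => (orient G ω).arc s v),
        (μ ω + μ (flip s(s, v) ω)) := by
      rw [sum_add_distrib, ← sum_filter_add_sum_filter_not CT (fun ω => (orient G ω).arc s v)]
      congr 1
      refine sum_bij' (fun ω _ => flip s(s, v) ω) (fun ω _ => flip s(s, v) ω) ?_ ?_ ?_ ?_ ?_
      · intro ω hω
        rw [mem_filter] at hω ⊢
        exact ⟨(hinv ω).2 hω.1, (arc_flip hadj ω).2 hω.2⟩
      · intro ω hω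
        rw [mem_filter] at hω ⊢
        exact ⟨(hinv ω).2 hω.1, fun h => (arc_flip hadj ω).1 h hω.2⟩
      · intro ω _; exact flip_flip _ _
      · intro ω _; exact flip_flip _ _
      · intro ω _; rw [flip_flip]
    have hle : ε * ∑ ω ∈ CT, μ ω ≤ ∑ ω ∈ CT.filter (fun ω => (orient G ω).arc s v), μ ω := by
      rw [hsum, mul_sum]
      exact sum_le_sum fun ω _ => hμ.free _ ((SimpleGraph.mem_edgeSet G).2 hadj) ω
    rw [card_insert_of_notMem hs, pow_succ]
    calc ε ^ T.card * ε * ∑ ω ∈ C, μ ω = ε * (ε ^ T.card * ∑ ω ∈ C, μ ω) := by ring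
      _ ≤ ε * ∑ ω ∈ CT, μ ω := mul_le_mul_of_nonneg_left ih' hε.le
      _ ≤ _ := hle

open Classical in
/-- the exploration bound -/
lemma exploration {G : SimpleGraph (Fin n)} {ε : ℝ} {μ : (Sym2 (Fin n) → Bool) → ℝ}
    (hε : 0 < ε) (hμ : IsRandomOrientation G ε μ) {a J : ℕ} {q : ℝ} (hq1 : q ≤ 1)
    (Hq : ∀ P S : Finset (Fin n), S ⊆ P → P.card < J → S.card < a →
      ∃ v, v ∉ P ∧ q ≤ ε ^ (S.filter (fun s => G.Adj s v)).card) (m : ℕ) :
    ∀ (P S : Finset (Fin n)) (C : Finset (Sym2 (Fin n) → Bool)), P.card + m = J → S ⊆ P →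
      InsideOf P C → (∀ ω ∈ C, (orient G ω).AcyclicOn S) →
      ∑ ω ∈ C.filter (fun ω => ∀ S' : Finset (Fin n), (orient G ω).AcyclicOn S' → S'.card < a),
        μ ω ≤ Real.exp ((a : ℝ) - S.card) * (1 - (1 / 2) * q) ^ m * ∑ ω ∈ C, μ ω := by
  induction m with
  | zero =>
    intro P S C hP hSP hC hac
    have hμC : 0 ≤ ∑ ω ∈ C, μ ω := sum_nonneg fun ω _ => hμ.nonneg ω
    by_cases hSa : a ≤ S.card
    · have : C.filter (fun ω => ∀ S' : Finset (Fin n), (orient G ω).AcyclicOn S' → S'.card < a)
          = ∅ := by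
        rw [filter_eq_empty_iff]
        intro ω hω h
        exact absurd (h S (hac ω hω)) (not_lt.2 hSa)
      rw [this, sum_empty]
      positivity
    · push Not at hSa
      have h1 : (1 : ℝ) ≤ Real.exp ((a : ℝ) - S.card) := by
        apply Real.one_le_exp
        have : (S.card : ℝ) ≤ a := by exact_mod_cast hSa.le
        linarith
      have h2 : ∑ ω ∈ C.filter (fun ω => ∀ S' : Finset (Fin n), (orient G ω).AcyclicOn S' →
          S'.card < a), μ ω ≤ ∑ ω ∈ C, μ ω :=
        sum_le_sum_of_subset_of_nonneg (filter_subset _ _) fun ω _ _ => hμ.nonneg ω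
      rw [pow_zero, mul_one]
      nlinarith
  | succ m ih =>
    intro P S C hP hSP hC hac
    have hμC : 0 ≤ ∑ ω ∈ C, μ ω := sum_nonneg fun ω _ => hμ.nonneg ω
    have hρ : 0 ≤ 1 - (1 / 2) * q := by linarith
    by_cases hSa : a ≤ S.card
    · have : C.filter (fun ω => ∀ S' : Finset (Fin n), (orient G ω).AcyclicOn S' → S'.card < a)
          = ∅ := by
        rw [filter_eq_empty_iff]
        intro ω hω h
        exact absurd (h S (hac ω hω)) (not_lt.2 hSa)
      rw [this, sum_empty]
      positivity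
    · push Not at hSa
      obtain ⟨v, hvP, hvq⟩ := Hq P S hSP (by omega) hSa
      set T := S.filter (fun s => G.Adj s v) with hT
      have hvS : v ∉ S := fun h => hvP (hSP h)
      set good : (Sym2 (Fin n) → Bool) → Prop := fun ω => ∀ s ∈ T, (orient G ω).arc s v with hgood
      have hcb : q * ∑ ω ∈ C, μ ω ≤ ∑ ω ∈ C.filter good, μ ω :=
        (mul_le_mul_of_nonneg_right hvq hμC).trans
          (cond_bound hε hμ hC hvP T ((filter_subset _ _).trans hSP)
            fun s hs => (mem_filter.1 hs).2)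
      have hginv : ∀ e : Sym2 (Fin n), (¬ ∀ x ∈ e, x ∈ insert v P) → ∀ ω,
          good (flip e ω) ↔ good ω := by
        intro e he ω
        refine forall₂_congr fun x hx => ?_
        apply arc_flip_ne
        rintro rfl
        apply he
        intro y hy
        rw [Sym2.mem_iff] at hy
        rcases hy with rfl | rfl
        · exact mem_insert_of_mem (hSP (mem_filter.1 hx).1)
        · exact mem_insert_self _ _
      have hCinv : ∀ e : Sym2 (Fin n), (¬ ∀ x ∈ e, x ∈ insert v P) → ∀ ω,
          flip e ω ∈ C ↔ ω ∈ C := by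
        intro e he ω
        apply hC
        intro h
        exact he fun x hx => mem_insert_of_mem (h x hx)
      have hC1 : InsideOf (insert v P) (C.filter good) := by
        intro e he ω
        rw [mem_filter, mem_filter, hCinv e he, hginv e he]
      have hC2 : InsideOf (insert v P) (C.filter (fun ω => ¬ good ω)) := by
        intro e he ω
        rw [mem_filter, mem_filter, hCinv e he, hginv e he]
      have hcard : (insert v P).card + m = J := by
        rw [card_insert_of_notMem hvP]; omega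
      have ih1 := ih (insert v P) (insert v S) (C.filter good) hcard (insert_subset_insert _ hSP)
        hC1 (by
          intro ω hω
          rw [mem_filter] at hω
          apply acyclic_insert (hac ω hω.1)
          intro b hb hvb
          have hb' : b ∈ T := mem_filter.2 ⟨hb, hvb.1.symm⟩
          exact (orient G ω).asymm _ _ hvb (hω.2 b hb'))
      have ih2 := ih (insert v P) S (C.filter (fun ω => ¬ good ω)) hcard
        (hSP.trans (subset_insert _ _)) hC2 (fun ω hω => hac ω (mem_filter.1 hω).1)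
      have hsplit1 : ∑ ω ∈ C.filter (fun ω => ∀ S' : Finset (Fin n),
          (orient G ω).AcyclicOn S' → S'.card < a), μ ω =
          ∑ ω ∈ (C.filter good).filter (fun ω => ∀ S' : Finset (Fin n),
            (orient G ω).AcyclicOn S' → S'.card < a), μ ω +
          ∑ ω ∈ (C.filter (fun ω => ¬ good ω)).filter (fun ω => ∀ S' : Finset (Fin n),
            (orient G ω).AcyclicOn S' → S'.card < a), μ ω := by
        rw [filter_filter, filter_filter, ← sum_filter_add_sum_filter_not (C.filter (fun ω =>
          ∀ S' : Finset (Fin n), (orient G ω).AcyclicOn S' → S'.card < a)) good, filter_filter,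
          filter_filter]
        congr 2 <;> (apply filter_congr; intro ω _; tauto)
      have hsplit2 := sum_filter_add_sum_filter_not C good μ
      have hexp : Real.exp ((a : ℝ) - (insert v S).card) ≤ (1 / 2) * Real.exp ((a : ℝ) - S.card) := by
        rw [card_insert_of_notMem hvS]
        push_cast
        rw [show (a : ℝ) - ((S.card : ℝ) + 1) = ((a : ℝ) - S.card) - 1 by ring, Real.exp_sub]
        have he : (2 : ℝ) ≤ Real.exp 1 := by
          have := Real.add_one_le_exp (1 : ℝ)
          linarith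
        have hpos := Real.exp_pos ((a : ℝ) - S.card)
        rw [div_le_iff₀ (Real.exp_pos 1)]
        nlinarith
      set U := Real.exp ((a : ℝ) - S.card) with hU
      have hU0 : 0 < U := Real.exp_pos _
      set R := (1 - (1 / 2) * q) ^ m with hR
      have hR0 : 0 ≤ R := pow_nonneg hρ m
      set M1 := ∑ ω ∈ C.filter good, μ ω with hM1
      set M2 := ∑ ω ∈ C.filter (fun ω => ¬ good ω), μ ω with hM2
      have hM10 : 0 ≤ M1 := sum_nonneg fun ω _ => hμ.nonneg ω
      have h3 : Real.exp ((a : ℝ) - (insert v S).card) * R * M1 ≤ (1 / 2) * U * R * M1 := by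
        gcongr
      rw [hsplit1, ← hsplit2] 
      rw [← hsplit2] at hcb
      calc _ ≤ (1 / 2) * U * R * M1 + U * R * M2 := add_le_add (ih1.trans h3) ih2
        _ = U * R * ((M1 + M2) - (1 / 2) * M1) := by ring
        _ ≤ U * R * ((M1 + M2) - (1 / 2) * (q * (M1 + M2))) := by
            apply mul_le_mul_of_nonneg_left _ (by positivity)
            linarith
        _ = U * (1 - 1 / 2 * q) ^ (m + 1) * (M1 + M2) := by
            rw [pow_succ, ← hR]; ring

open Classical in
/-- some unexplored vertex sees few selected vertices -/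
lemma exists_few {G : SimpleGraph (Fin n)} {k : ℕ} (hk : ∀ v, (univ.filter (G.Adj v)).card ≤ k)
    (P S : Finset (Fin n)) (hP : P.card < n) :
    ∃ v, v ∉ P ∧ (n - P.card) * (S.filter (fun s => G.Adj s v)).card ≤ k * S.card := by
  by_contra hcon
  push Not at hcon
  have hne : Pᶜ.Nonempty := by
    rw [← card_pos, card_compl, Fintype.card_fin]
    omega
  have h1 : Pᶜ.card * (k * S.card) < ∑ v ∈ Pᶜ, (n - P.card) * (S.filter (fun s => G.Adj s v)).card := by
    have : ∑ v ∈ Pᶜ, k * S.card < ∑ v ∈ Pᶜ, (n - P.card) * (S.filter (fun s => G.Adj s v)).card := by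
      apply sum_lt_sum_of_nonempty hne
      intro v hv
      exact hcon v (mem_compl.1 hv)
    rwa [sum_const, smul_eq_mul] at this
  have h2 : ∑ v ∈ Pᶜ, (S.filter (fun s => G.Adj s v)).card ≤ k * S.card := by
    have h3 : ∑ v ∈ Pᶜ, (S.filter (fun s => G.Adj s v)).card =
        ∑ s ∈ S, (Pᶜ.filter (fun v => G.Adj s v)).card := by
      simp only [card_filter]
      exact sum_comm
    rw [h3]
    calc _ ≤ ∑ s ∈ S, k := sum_le_sum fun s _ =>
          (card_le_card (filter_subset_filter _ (subset_univ _))).trans (hk s)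
      _ = k * S.card := by rw [sum_const, smul_eq_mul, mul_comm]
  rw [← mul_sum, card_compl, Fintype.card_fin] at h1
  have h4 : (n - P.card) * ∑ v ∈ Pᶜ, (S.filter (fun s => G.Adj s v)).card ≤
      (n - P.card) * (k * S.card) := Nat.mul_le_mul_left _ h2
  omega

lemma fvs_lt {D : OrientedGraph n} (hn : 0 < n) : D.fvs ≤ n - 1 := by
  have h : D.AcyclicOn (insert (⟨0, hn⟩ : Fin n) ∅) := acyclic_insert (acyclic_empty D) (by simp)
  have := fvs_le h
  simpa using this

open Classical in
/-- **Q1 for almost all orientations.** For every `η > 0` there is `θ > 0` such that for every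
graph `G` on `n` vertices with maximum degree at most `k` and every random orientation of `G` in
which, conditionally on all other edges, every edge takes each direction with probability at least
`ε`, the inequality `fvs ≤ (1 - (θ / log₂ (1/ε)) log₂ k / k) n` fails with probability at most
`exp (- n / (10 k ^ η))`. -/
theorem result : ∀ η : ℝ, 0 < η → ∃ θ : ℝ, 0 < θ ∧ ∀ ε : ℝ, 0 < ε → ε ≤ 1 / 2 →
    ∀ k : ℕ, 3 ≤ k → ∀ (n : ℕ) (G : SimpleGraph (Fin n)),
    (∀ v, (univ.filter (G.Adj v)).card ≤ k) →
    ∀ μ : (Sym2 (Fin n) → Bool) → ℝ, IsRandomOrientation G ε μ →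
    ∑ ω ∈ univ.filter (fun ω => (1 - θ / Real.logb 2 (1 / ε) * (Real.logb 2 k / k)) * n <
      ((orient G ω).fvs : ℝ)), μ ω ≤ Real.exp (-(n : ℝ) / (10 * (k : ℝ) ^ η)) := by
  intro η hη
  set δ : ℝ := min (η / 2) (1 / 100) with hδ
  have hδ0 : 0 < δ := lt_min (by linarith) (by norm_num)
  have hδη : 2 * δ ≤ η := by have := min_le_left (η / 2) (1 / 100 : ℝ); linarith
  have hδ1 : δ ≤ 1 / 100 := min_le_right _ _
  refine ⟨δ, hδ0, fun ε hε hε2 k hk n G hG μ hμ => ?_⟩
  have hk3 : (3 : ℝ) ≤ k := by exact_mod_cast hk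
  have hk0 : (0 : ℝ) < k := by linarith
  have hlog2 : 0 < Real.log 2 := Real.log_pos (by norm_num)
  have hlog2' : (0.69 : ℝ) ≤ Real.log 2 := by have := Real.log_two_gt_d9; linarith
  set ℓ : ℝ := Real.log (1 / ε) with hℓ
  have hℓ2 : Real.log 2 ≤ ℓ := by
    apply Real.log_le_log (by norm_num)
    rw [le_div_iff₀ hε]; linarith
  have hℓ0 : 0 < ℓ := lt_of_lt_of_le hlog2 hℓ2
  have hL0 : 0 < Real.log k := Real.log_pos (by linarith)
  set A : ℝ := δ * Real.log k / (ℓ * k) * n with hA
  have hn0 : (0 : ℝ) ≤ n := Nat.cast_nonneg n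
  have hA0 : 0 ≤ A := by positivity
  have hthr : (1 - δ / Real.logb 2 (1 / ε) * (Real.logb 2 k / k)) * n = n - A := by
    rw [hA, Real.logb, Real.logb, ← hℓ]
    field_simp
  rw [hthr]
  have hAn : A ≤ n := by
    have h1 : δ * Real.log k / (ℓ * k) ≤ 1 := by
      rw [div_le_one (by positivity)]
      have h2 : Real.log k ≤ k := (Real.log_le_sub_one_of_pos hk0).trans (by linarith)
      have h3 : δ ≤ ℓ := by linarith
      exact mul_le_mul h3 h2 hL0.le hℓ0.le
    calc A ≤ 1 * n := mul_le_mul_of_nonneg_right h1 hn0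
      _ = n := one_mul _
  by_cases hA1 : A ≤ 1
  · have hempty : univ.filter (fun ω : Sym2 (Fin n) → Bool =>
        (n : ℝ) - A < ((orient G ω).fvs : ℝ)) = ∅ := by
      rw [filter_eq_empty_iff]
      intro ω _ h
      rcases Nat.eq_zero_or_pos n with h0 | h0
      · have h2 := fvs_le (D := orient G ω) (acyclic_empty _)
        have h3 : (orient G ω).fvs = 0 := by omega
        rw [h3] at h
        push_cast at h
        linarith
      · have h2 := fvs_lt (D := orient G ω) h0
        have h3 : ((orient G ω).fvs : ℝ) ≤ n - 1 := by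
          have h4 : (orient G ω).fvs + 1 ≤ n := by omega
          have h5 : (((orient G ω).fvs + 1 : ℕ) : ℝ) ≤ n := by exact_mod_cast h4
          push_cast at h5
          linarith
        linarith
    rw [hempty, sum_empty]
    exact (Real.exp_pos _).le
  push Not at hA1
  have hn2 : 2 ≤ n := by
    by_contra h
    have h1 : n ≤ 1 := by omega
    have h2 : (n : ℝ) ≤ 1 := by exact_mod_cast h1
    linarith
  set a : ℕ := ⌈A⌉₊ with ha
  set J : ℕ := n / 2 with hJ
  set q : ℝ := (k : ℝ) ^ (-(2 * δ)) with hq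
  have hq0 : 0 < q := Real.rpow_pos_of_pos hk0 _
  have hq1 : q ≤ 1 := Real.rpow_le_one_of_one_le_of_nonpos (by linarith) (by linarith)
  have hqexp : q = Real.exp (-(2 * δ) * Real.log k) := by
    rw [hq, Real.rpow_def_of_pos hk0, mul_comm]
  have hεexp : ε = Real.exp (-ℓ) := by
    rw [hℓ, one_div, Real.log_inv, neg_neg, Real.exp_log hε]
  have Hq : ∀ P S : Finset (Fin n), S ⊆ P → P.card < J → S.card < a →
      ∃ v, v ∉ P ∧ q ≤ ε ^ (S.filter (fun s => G.Adj s v)).card := by
    intro P S _ hPJ hSa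
    obtain ⟨v, hv, hvc⟩ := exists_few hG P S (by omega)
    refine ⟨v, hv, ?_⟩
    set t := (S.filter (fun s => G.Adj s v)).card with ht
    have hSA : (S.card : ℝ) < A := Nat.lt_ceil.1 hSa
    have h1 : ((n : ℝ) / 2) * t ≤ k * A := by
      have h2 : n * t ≤ 2 * (k * S.card) := by
        have : n ≤ 2 * (n - P.card) := by omega
        calc n * t ≤ 2 * (n - P.card) * t := Nat.mul_le_mul_right _ this
          _ = 2 * ((n - P.card) * t) := by ring
          _ ≤ 2 * (k * S.card) := Nat.mul_le_mul_left _ hvc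
      have h3 : (n : ℝ) * t ≤ 2 * (k * S.card) := by exact_mod_cast h2
      have h4 : (k : ℝ) * S.card ≤ k * A := mul_le_mul_of_nonneg_left hSA.le hk0.le
      linarith
    have hnpos : (0 : ℝ) < n := by positivity
    have h5 : ℓ * t ≤ 2 * δ * Real.log k := by
      have h6 : (k : ℝ) * A = δ * Real.log k / ℓ * n := by
        rw [hA]; field_simp
      rw [h6] at h1
      have h7 : (t : ℝ) ≤ 2 * (δ * Real.log k / ℓ) := by
        have h8 : (n : ℝ) * t ≤ n * (2 * (δ * Real.log k / ℓ)) := by linarith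
        exact le_of_mul_le_mul_left h8 hnpos
      calc ℓ * t ≤ ℓ * (2 * (δ * Real.log k / ℓ)) := mul_le_mul_of_nonneg_left h7 hℓ0.le
        _ = 2 * δ * Real.log k := by field_simp
    rw [hqexp, hεexp, ← Real.exp_nat_mul]
    apply Real.exp_le_exp.2
    nlinarith
  have hmain := exploration hε hμ hq1 Hq J ∅ ∅ univ (by simp) (subset_refl _)
    (fun e _ ω => by simp) (fun ω _ => acyclic_empty _)
  rw [hμ.total, card_empty, mul_one] at hmain
  have hsub : ∑ ω ∈ univ.filter (fun ω : Sym2 (Fin n) → Bool =>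
      (n : ℝ) - A < ((orient G ω).fvs : ℝ)), μ ω ≤
      ∑ ω ∈ univ.filter (fun ω => ∀ S' : Finset (Fin n), (orient G ω).AcyclicOn S' →
        S'.card < a), μ ω := by
    apply sum_le_sum_of_subset_of_nonneg _ fun ω _ _ => hμ.nonneg ω
    intro ω hω
    rw [mem_filter] at hω ⊢
    refine ⟨mem_univ _, fun S' hS' => ?_⟩
    by_contra hcon
    push Not at hcon
    have h1 := fvs_le hS'
    have h2 : S'.card ≤ n := by
      have := card_le_univ S'
      rwa [Fintype.card_fin] at this
    have h3 : (orient G ω).fvs + S'.card ≤ n := by omega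
    have h4 : ((orient G ω).fvs : ℝ) + S'.card ≤ n := by exact_mod_cast h3
    have h5 : A ≤ S'.card := (Nat.le_ceil A).trans (by exact_mod_cast hcon)
    linarith [hω.2]
  refine hsub.trans (hmain.trans ?_)
  -- numeric part
  have haA : (a : ℝ) ≤ 2 * A := by
    have := Nat.ceil_lt_add_one hA0
    linarith
  have hJn : (n : ℝ) / 3 ≤ J := by
    have h1 : n ≤ 3 * J := by omega
    have h2 : (n : ℝ) ≤ 3 * J := by exact_mod_cast h1
    linarith
  have hρ : (1 - (1 / 2) * q) ^ J ≤ Real.exp (-((1 / 2) * q) * J) := by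
    have h1 : 1 - (1 / 2) * q ≤ Real.exp (-((1 / 2) * q)) := by
      have := Real.add_one_le_exp (-((1 / 2) * q))
      linarith
    calc (1 - (1 / 2) * q) ^ J ≤ (Real.exp (-((1 / 2) * q))) ^ J :=
          pow_le_pow_left₀ (by linarith) h1 J
      _ = Real.exp (-((1 / 2) * q) * J) := by rw [← Real.exp_nat_mul, mul_comm]
  have hsq : Real.log k ≤ 2 * Real.sqrt k := by
    have h1 := Real.log_le_sub_one_of_pos (Real.sqrt_pos.2 hk0)
    rw [Real.log_sqrt hk0.le] at h1
    linarith
  have hsq0 : 0 < Real.sqrt k := Real.sqrt_pos.2 hk0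
  have hqs : 1 / Real.sqrt k ≤ q := by
    rw [Real.sqrt_eq_rpow, one_div, ← Real.rpow_neg hk0.le, hq]
    exact Real.rpow_le_rpow_of_exponent_le (by linarith) (by linarith)
  have h2A : 2 * A ≤ n * q / 15 := by
    have h1 : δ * Real.log k / (ℓ * k) ≤ q / 30 := by
      have h2 : δ * Real.log k / (ℓ * k) ≤ (1 / 30) * (1 / Real.sqrt k) := by
        rw [div_le_iff₀ (by positivity)]
        have h3 : (1 / 30 : ℝ) * (1 / Real.sqrt k) * (ℓ * k) = (1 / 30) * ℓ * Real.sqrt k := by
          have h4 : (k : ℝ) = Real.sqrt k * Real.sqrt k := (Real.mul_self_sqrt hk0.le).symm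
          nth_rewrite 2 [h4]
          field_simp
        rw [h3]
        have h5 : δ * Real.log k ≤ (1 / 100) * (2 * Real.sqrt k) :=
          mul_le_mul hδ1 hsq hL0.le (by norm_num)
        nlinarith
      linarith
    have h6 : A ≤ q / 30 * n := mul_le_mul_of_nonneg_right h1 hn0
    linarith
  have hkη : n * q ≥ n / (k : ℝ) ^ η := by
    have h1 : ((k : ℝ) ^ η)⁻¹ ≤ q := by
      rw [← Real.rpow_neg hk0.le, hq]
      exact Real.rpow_le_rpow_of_exponent_le (by linarith) (by linarith)
    rw [div_eq_mul_inv]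
    exact mul_le_mul_of_nonneg_left h1 hn0
  calc Real.exp ((a : ℝ) - ((0 : ℕ) : ℝ)) * (1 - 1 / 2 * q) ^ J
      ≤ Real.exp ((a : ℝ) - ((0 : ℕ) : ℝ)) * Real.exp (-((1 / 2) * q) * J) :=
        mul_le_mul_of_nonneg_left hρ (Real.exp_pos _).le
    _ = Real.exp ((a : ℝ) - (1 / 2) * q * J) := by
        rw [← Real.exp_add]; congr 1; push_cast; ring
    _ ≤ Real.exp (-(n : ℝ) / (10 * (k : ℝ) ^ η)) := by
        apply Real.exp_le_exp.2
        have h1 : (n : ℝ) * q / 6 ≤ (1 / 2) * q * J := by nlinarith
        have h2 : -(n : ℝ) / (10 * (k : ℝ) ^ η) = -(1 / 10) * (n / (k : ℝ) ^ η) := by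
          field_simp
        rw [h2]
        linarith

end Pool.Agent.Results.MP_94e41a_co.SmoothedOrientations
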